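import Pool.Agent.Helper85_GN.Gn
import Pool.Agent.MWU.Top

/-!
# Necessity in the gamma world, all periods, second part (helper85)
-/

set_option autoImplicit false

namespace Pool.Agent.Helper85_GN

open Pool.Agent.Helper14_MV Pool.Agent.Helper2_MV
open Pool.Agent.Helper44_MVT hiding ev_rep
open Pool.Agent.MWK (PA PB PC PD)
open Pool.Agent.Helper70_MWR (Hg Wc ev_rep ncr_rep)

section alg

variable {M : Type*} [Monoid M] {n : ℕ} (H : Wc n M)

include H

/-- words in two idempotents which are not of the form `e^a f^b` -/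
theorem zword (x y : M) (g : ℕ → M) (h0 : g 0 = x ^ (2 * n)) (h1 : g 1 = y ^ (2 * n)) :
    ∀ r : List ℕ, (∀ c ∈ r, c = 0 ∨ c = 1) →
      x ^ (2 * n) * y ^ (2 * n) * x ^ (2 * n) * ev g r * y ^ (2 * n) = (x * y) ^ (2 * n) := by
  intro r
  induction r with
  | nil =>
    intro _
    rw [ev_nil, mul_one, H.zdef, pow_two]
    simp only [mul_assoc]
  | cons c r ih =>
    intro hr
    have ih' := ih (fun d hd => hr d (List.mem_cons_of_mem _ hd))
    rcases hr c List.mem_cons_self with rfl | rfl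
    · rw [ev_cons, h0]
      calc x ^ (2 * n) * y ^ (2 * n) * x ^ (2 * n) * (x ^ (2 * n) * ev g r) * y ^ (2 * n)
          = x ^ (2 * n) * y ^ (2 * n) * (x ^ (2 * n) * x ^ (2 * n)) * ev g r * y ^ (2 * n) := by
            simp only [mul_assoc]
        _ = _ := by rw [H.ee, ih']
    · rw [ev_cons, h1]
      have hZ : x ^ (2 * n) * y ^ (2 * n) * x ^ (2 * n) * y ^ (2 * n) = (x * y) ^ (2 * n) := by
        rw [H.zdef, pow_two]
        simp only [mul_assoc]
      calc x ^ (2 * n) * y ^ (2 * n) * x ^ (2 * n) * (y ^ (2 * n) * ev g r) * y ^ (2 * n)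
          = (x ^ (2 * n) * y ^ (2 * n) * x ^ (2 * n) * y ^ (2 * n)) * ev g r * y ^ (2 * n) := by
            simp only [mul_assoc]
        _ = (x * y) ^ (2 * n) * ev g r * y ^ (2 * n) := by rw [hZ]
        _ = (x * y) ^ (2 * n) * y ^ (2 * n) := by
            rw [ev_absR]
            intro c hc
            rcases hr c (List.mem_cons_of_mem _ hc) with rfl | rfl
            · rw [h0, H.ze]
            · rw [h1, H.ze']
        _ = (x * y) ^ (2 * n) := H.ze' x y

theorem zyx (x y : M) (p : ℕ) :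
    (x * y) ^ (2 * n) * (y * x ^ p) = (x * y) ^ (2 * n) * (x ^ p * y) := by
  induction p with
  | zero => simp
  | succ p ih =>
    calc (x * y) ^ (2 * n) * (y * x ^ (p + 1)) = (x * y) ^ (2 * n) * (y * x ^ p) * x := by
          rw [pow_succ]; simp only [mul_assoc]
      _ = (x * y) ^ (2 * n) * (x ^ p * y) * x := by rw [ih]
      _ = (x * y) ^ (2 * n) * x ^ p * (y * x) := by simp only [mul_assoc]
      _ = x ^ p * ((x * y) ^ (2 * n) * (y * x)) := by rw [← H.zcp]; simp only [mul_assoc]
      _ = x ^ p * ((x * y) ^ (2 * n) * (x * y)) := by rw [H.zab]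
      _ = (x * y) ^ (2 * n) * x ^ p * (x * y) := by rw [← mul_assoc, H.zcp]
      _ = (x * y) ^ (2 * n) * (x ^ (p + 1) * y) := by rw [pow_succ]; simp only [mul_assoc]

/-- words in two letters below the zero -/
theorem zev (x y : M) (g : ℕ → M) (h0 : g 0 = x) (h1 : g 1 = y) :
    ∀ m : List ℕ, (∀ c ∈ m, c = 0 ∨ c = 1) →
      (x * y) ^ (2 * n) * ev g m = (x * y) ^ (2 * n) * (x ^ m.count 0 * y ^ m.count 1) := by
  intro m
  induction m with
  | nil => intro _; simp [ev_nil]
  | cons c m ih =>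
    intro hm
    have ih' := ih (fun d hd => hm d (List.mem_cons_of_mem _ hd))
    rcases hm c List.mem_cons_self with rfl | rfl
    · rw [ev_cons, h0, List.count_cons_self, List.count_cons_of_ne (by decide)]
      calc (x * y) ^ (2 * n) * (x * ev g m) = x * ((x * y) ^ (2 * n) * ev g m) := by
            rw [← mul_assoc, ← H.zc, mul_assoc]
        _ = x * ((x * y) ^ (2 * n) * (x ^ m.count 0 * y ^ m.count 1)) := by rw [ih']
        _ = (x * y) ^ (2 * n) * (x ^ (m.count 0 + 1) * y ^ m.count 1) := by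
            rw [← mul_assoc, H.zc, pow_succ']
            simp only [mul_assoc]
    · rw [ev_cons, h1, List.count_cons_self, List.count_cons_of_ne (by decide)]
      calc (x * y) ^ (2 * n) * (y * ev g m) = y * ((x * y) ^ (2 * n) * ev g m) := by
            rw [← mul_assoc, ← H.zc', mul_assoc]
        _ = y * ((x * y) ^ (2 * n) * (x ^ m.count 0 * y ^ m.count 1)) := by rw [ih']
        _ = (x * y) ^ (2 * n) * (y * x ^ m.count 0) * y ^ m.count 1 := by
            rw [← mul_assoc, H.zc']
            simp only [mul_assoc]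
        _ = (x * y) ^ (2 * n) * (x ^ m.count 0 * y) * y ^ m.count 1 := by rw [zyx H]
        _ = (x * y) ^ (2 * n) * (x ^ m.count 0 * y ^ (m.count 1 + 1)) := by
            rw [pow_succ']
            simp only [mul_assoc]

/-- the zero commutes with words in the letters -/
theorem zcom (x y : M) (g : ℕ → M) (h0 : g 0 = x) (h1 : g 1 = y) :
    ∀ m : List ℕ, (∀ c ∈ m, c = 0 ∨ c = 1) →
      ev g m * (x * y) ^ (2 * n) = (x * y) ^ (2 * n) * ev g m := by
  intro m
  induction m with
  | nil => intro _; simp [ev_nil]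
  | cons c m ih =>
    intro hm
    have ih' := ih (fun d hd => hm d (List.mem_cons_of_mem _ hd))
    rcases hm c List.mem_cons_self with rfl | rfl
    · rw [ev_cons, h0, mul_assoc, ih', ← mul_assoc, H.zc, mul_assoc]
    · rw [ev_cons, h1, mul_assoc, ih', ← mul_assoc, H.zc', mul_assoc]

end alg

variable {n : ℕ} {β : FIC}

/-- row NAA for all periods -/
theorem naa (H : Hg n β)
    (hn : ¬ ∀ x y : MM β, x ^ (2 * n) * y ^ (2 * n) = y ^ (2 * n) * x ^ (2 * n)) :
    ∀ w w' : List ℕ, RR β w w' → PA w → PA w' := by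
  rintro w w' hw ⟨i, j, hi, hj, rfl⟩
  have hpos := H.pos
  have hcr := H.ncr
  have W := H.wc
  have hlet : ∀ c ∈ w', c = 0 ∨ c = 1 := by
    intro c hc
    have h1 := (ctn hcr hw c).2 hc
    rcases List.mem_append.1 h1 with h | h
    · exact Or.inl (List.mem_replicate.1 h).2
    · exact Or.inr (List.mem_replicate.1 h).2
  have hcw0 : (List.replicate i 0 ++ List.replicate j 1).count 0 = i := by
    rw [List.count_append, List.count_replicate_self, List.count_replicate]
    simp
  have hcw1 : (List.replicate i 0 ++ List.replicate j 1).count 1 = j := by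
    rw [List.count_append, List.count_replicate_self, List.count_replicate]
    simp
  have hc0 : 2 ≤ w'.count 0 := (Helper70_MWR.cnt hcr hw 0).1 (by omega)
  have hc1 : 2 ≤ w'.count 1 := (Helper70_MWR.cnt hcr hw 1).1 (by omega)
  rcases MWK.H3.shape01 w' hlet with ⟨a, b, hab⟩ | ⟨a, b, r, hb, hab, hr⟩
  · refine ⟨a, b, ?_, ?_, hab⟩
    · rw [hab, List.count_append, List.count_replicate_self, List.count_replicate] at hc0
      simpa using hc0
    · rw [hab, List.count_append, List.count_replicate_self, List.count_replicate] at hc1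
      simpa using hc1
  · exfalso
    apply hn
    have key : ∀ x y : MM β, x ^ (2 * n) * y ^ (2 * n) = (x * y) ^ (2 * n) := by
      intro x y
      have h1 := ev_eq hw (fun c => if c = 0 then x ^ (2 * n) else y ^ (2 * n))
      have h2 := zword W x y (fun c => if c = 0 then x ^ (2 * n) else y ^ (2 * n)) rfl rfl r hr
      rw [hab] at h1
      rw [ev_append, ev_rep, ev_rep, ev_append, ev_append, ev_rep, ev_rep, ev_cons] at h1
      simp only [if_true, one_ne_zero, if_false] at h1
      rw [W.epow x (by omega), W.epow y (by omega), W.epow y hb] at h1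
      generalize ev (fun c => if c = 0 then x ^ (2 * n) else y ^ (2 * n)) r = R at h1 h2
      have hea : x ^ (2 * n) * (x ^ (2 * n)) ^ a = x ^ (2 * n) := by
        rcases Nat.eq_zero_or_pos a with h3 | h3
        · rw [h3, pow_zero, mul_one]
        · rw [W.epow x h3, W.ee]
      calc x ^ (2 * n) * y ^ (2 * n)
          = (x ^ (2 * n) * x ^ (2 * n)) * (y ^ (2 * n) * y ^ (2 * n)) := by rw [W.ee, W.ee]
        _ = x ^ (2 * n) * (x ^ (2 * n) * y ^ (2 * n)) * y ^ (2 * n) := by simp only [mul_assoc]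
        _ = x ^ (2 * n) * ((x ^ (2 * n)) ^ a * y ^ (2 * n) * (x ^ (2 * n) * R)) * y ^ (2 * n) := by
            rw [h1]
        _ = (x ^ (2 * n) * (x ^ (2 * n)) ^ a) * y ^ (2 * n) * x ^ (2 * n) * R * y ^ (2 * n) := by
            simp only [mul_assoc]
        _ = x ^ (2 * n) * y ^ (2 * n) * x ^ (2 * n) * R * y ^ (2 * n) := by rw [hea]
        _ = (x * y) ^ (2 * n) := h2
    intro x y
    rw [key, key, W.zsymm]

/-- row NPB for all periods -/
theorem npb (G : Gn n β) (hPA : ∀ w w' : List ℕ, RR β w w' → PA w → PA w') :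
    ∀ w w' : List ℕ, RR β w w' → PB w → PB w' := by
  intro w w' hww hPB
  obtain ⟨hc, ⟨k, hk, hf2⟩, ⟨j, hj, hf0⟩⟩ := hPB
  have hcon := ctn G.hg.ncr hww
  have hc' : ∀ c ∈ w', c = 0 ∨ c = 1 ∨ c = 2 := fun c h => hc c ((hcon c).2 h)
  have h2 := hww.filter (fun c => decide (c ≠ 2))
  rw [hf2] at h2
  obtain ⟨k', hk', hk2⟩ := nty G 0 1 (by decide) k _ hk h2
  have h0 := hww.filter (fun c => decide (c ≠ 0))
  rw [hf0] at h0
  have h3 := h0.sub MWK.H50.g21
  have hl : (List.replicate j 2 ++ [1]).flatMap MWK.H50.g21 =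
      List.replicate j 0 ++ List.replicate 2 1 := by
    rw [List.flatMap_append, MWK.H50.flatMap_two]
    rfl
  have h4 := hPA _ _ h3 ⟨j, 2, hj, le_refl _, hl⟩
  have hcount : (w'.filter (fun c => decide (c ≠ 0))).count 1 = 1 := by
    have e1 : (w'.filter (fun c => decide (c ≠ 0))).count 1 = w'.count 1 :=
      List.count_filter (by decide)
    have e2 : (w'.filter (fun c => decide (c ≠ 2))).count 1 = w'.count 1 :=
      List.count_filter (by decide)
    rw [e1, ← e2, hk2]
    simp [List.count_replicate]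
  have hlet : ∀ c ∈ w'.filter (fun c => decide (c ≠ 0)), c = 1 ∨ c = 2 := by
    intro c hcm
    rw [List.mem_filter] at hcm
    obtain ⟨hm1, hm2⟩ := hcm
    have hm3 : c ≠ 0 := by simpa using hm2
    rcases hc' c hm1 with h | h | h
    · exact absurd h hm3
    · exact Or.inl h
    · exact Or.inr h
  exact ⟨hc', ⟨k', hk', hk2⟩, MWK.H50.shape _ hcount hlet h4⟩

/-- **idempotents commute** -/
theorem idcomm (G : Gn n β) (x y : MM β) :
    x ^ (2 * n) * y ^ (2 * n) = y ^ (2 * n) * x ^ (2 * n) := by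
  by_contra hn
  have hA := naa G.hg (fun h => hn (h x y))
  exact pen0 MWK.H53.nka MWK.H19.ntb G.hg.hm hA (npb G hA)

/-- `x^i y^j = y^j x^i` for `i, j ≥ 2` -/
theorem r0 (G : Gn n β) (x y : MM β) {i j : ℕ} (hi : 2 ≤ i) (hj : 2 ≤ j) :
    x ^ i * y ^ j = y ^ j * x ^ i := G.hg.wc.r0 (idcomm G) x y hi hj

/-- `xyt·m ~ yxt·m'` gives `xytxy ~ yxtxy` -/
theorem exch (G : Gn n β) {m m' : List ℕ} (h : RR β (0 :: 1 :: 2 :: m) (1 :: 0 :: 2 :: m'))
    (hm : ∀ c ∈ m, c = 0 ∨ c = 1) (hm' : ∀ c ∈ m', c = 0 ∨ c = 1)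
    (h0 : 0 ∈ m) (h1 : 1 ∈ m) :
    RR β [0, 1, 2, 0, 1] [1, 0, 2, 0, 1] := by
  have H := G.hg
  have hn := H.pos
  have W := H.wc
  have hz : (cn β 0 * cn β 1) ^ (2 * n) = cn β 0 ^ (2 * n) * cn β 1 ^ (2 * n) := by
    rw [W.zdef, pow_two]
    calc cn β 0 ^ (2 * n) * cn β 1 ^ (2 * n) * (cn β 0 ^ (2 * n) * cn β 1 ^ (2 * n))
        = cn β 0 ^ (2 * n) * (cn β 1 ^ (2 * n) * cn β 0 ^ (2 * n)) * cn β 1 ^ (2 * n) := by
          simp only [mul_assoc]
      _ = cn β 0 ^ (2 * n) * (cn β 0 ^ (2 * n) * cn β 1 ^ (2 * n)) * cn β 1 ^ (2 * n) := by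
          rw [idcomm G (cn β 1)]
      _ = (cn β 0 ^ (2 * n) * cn β 0 ^ (2 * n)) * (cn β 1 ^ (2 * n) * cn β 1 ^ (2 * n)) := by
          simp only [mul_assoc]
      _ = _ := by rw [W.ee, W.ee]
  -- equal powers
  have hp : ∀ c, c = 0 ∨ c = 1 → cn β c ^ (1 + m.count c) = cn β c ^ (1 + m'.count c) := by
    intro c hc
    have h2 := RR.filter (fun x => x == c) h
    rw [List.filter_beq, List.filter_beq, rr_iff, ev_rep, ev_rep] at h2
    rcases hc with rfl | rfl
    · simp at h2
      rw [Nat.add_comm, Nat.add_comm 1]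
      exact h2
    · simp at h2
      rw [Nat.add_comm, Nat.add_comm 1]
      exact h2
  have e0 := zev W (cn β 0) (cn β 1) (cn β) rfl rfl m hm
  have e0' := zev W (cn β 0) (cn β 1) (cn β) rfl rfl m' hm'
  have k0 := zcom W (cn β 0) (cn β 1) (cn β) rfl rfl m hm
  have k0' := zcom W (cn β 0) (cn β 1) (cn β) rfl rfl m' hm'
  have p0 := hp 0 (Or.inl rfl)
  have p1 := hp 1 (Or.inr rfl)
  have c0 : 1 ≤ m.count 0 := List.count_pos_iff.2 h0
  have c1 : 1 ≤ m.count 1 := List.count_pos_iff.2 h1
  rw [rr_iff] at h ⊢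
  simp only [ev_cons, ev_nil, mul_one] at h ⊢
  generalize ev (cn β) m = E at h e0 k0
  generalize ev (cn β) m' = E' at h e0' k0'
  generalize m.count 0 = p at *
  generalize m.count 1 = q at *
  generalize m'.count 0 = p' at *
  generalize m'.count 1 = q' at *
  generalize cn β 0 = x at *
  generalize cn β 1 = y at *
  generalize cn β 2 = t at *
  obtain ⟨Z, hZ⟩ : ∃ Z, Z = (x * y) ^ (2 * n) := ⟨_, rfl⟩
  have zx : Z * x = x * Z := by rw [hZ, W.zc]
  have zy : Z * y = y * Z := by rw [hZ, W.zc']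
  have zxp : ∀ i, Z * x ^ i = x ^ i * Z := fun i => by rw [hZ, W.zcp]
  have zyp : ∀ i, Z * y ^ i = y ^ i * Z := fun i => by rw [hZ, W.zcp']
  have zex : Z * x ^ (2 * n) = Z := by rw [hZ, W.ze]
  have zey : Z * y ^ (2 * n) = Z := by rw [hZ, W.ze']
  rw [← hZ] at hz e0 e0' k0 k0'
  -- powers below the zero depend on the residue only
  have px : ∀ i j : ℕ, i ≡ j [MOD n] → Z * x ^ i = Z * x ^ j := by
    intro i j hij
    have h2 : ∀ i, Z * x ^ i = Z * x ^ (2 * n + i) := by
      intro i
      rw [pow_add, ← mul_assoc, zex]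
    rw [h2 i, h2 j]
    congr 1
    exact W.pw _ (by omega) (by omega) (Nat.ModEq.add_left _ hij)
  have py : ∀ i j : ℕ, i ≡ j [MOD n] → Z * y ^ i = Z * y ^ j := by
    intro i j hij
    have h2 : ∀ i, Z * y ^ i = Z * y ^ (2 * n + i) := by
      intro i
      rw [pow_add, ← mul_assoc, zey]
    rw [h2 i, h2 j]
    congr 1
    exact W.pw _ (by omega) (by omega) (Nat.ModEq.add_left _ hij)
  have px' : Z * x ^ p = Z * x ^ p' := by
    have e : ∀ i, Z * x ^ i = Z * x ^ (2 * n - 1) * x ^ (1 + i) := by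
      intro i
      rw [mul_assoc, ← pow_add]
      have e1 : 2 * n - 1 + (1 + i) = 2 * n + i := by omega
      rw [e1, pow_add, ← mul_assoc, zex]
    rw [e, e p', p0]
  have py' : Z * y ^ q = Z * y ^ q' := by
    have e : ∀ i, Z * y ^ i = Z * y ^ (2 * n - 1) * y ^ (1 + i) := by
      intro i
      rw [mul_assoc, ← pow_add]
      have e1 : 2 * n - 1 + (1 + i) = 2 * n + i := by omega
      rw [e1, pow_add, ← mul_assoc, zey]
    rw [e, e q', p1]
  obtain ⟨s, hs⟩ : ∃ s, p + s ≡ 1 [MOD n] := by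
    refine ⟨n * p + 1 - p, ?_⟩
    have : p ≤ n * p := Nat.le_mul_of_pos_left p hn
    rw [Nat.add_sub_cancel' (by omega), Nat.add_comm]
    unfold Nat.ModEq
    rw [Nat.add_mul_mod_self_left]
  obtain ⟨r, hr⟩ : ∃ r, q + r ≡ 1 [MOD n] := by
    refine ⟨n * q + 1 - q, ?_⟩
    have : q ≤ n * q := Nat.le_mul_of_pos_left q hn
    rw [Nat.add_sub_cancel' (by omega), Nat.add_comm]
    unfold Nat.ModEq
    rw [Nat.add_mul_mod_self_left]
  -- both sides times `Z x^s y^r`
  have key : ∀ a b : ℕ, Z * (x ^ a * y ^ b) * (x ^ s * y ^ r) = (Z * x ^ a) * x ^ s * y ^ b * y ^ r := by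
    intro a b
    have h2 : Z * (y ^ b * x ^ s) = Z * (x ^ s * y ^ b) := by
      clear hs
      induction b with
      | zero => simp
      | succ b ih =>
        have h3 : Z * (y * x ^ s) = Z * (x ^ s * y) := by rw [hZ]; exact zyx W x y s
        calc Z * (y ^ (b + 1) * x ^ s) = (Z * y ^ b) * (y * x ^ s) := by
              rw [pow_succ]; simp only [mul_assoc]
          _ = y ^ b * (Z * (y * x ^ s)) := by rw [zyp]; simp only [mul_assoc]
          _ = (y ^ b * Z) * x ^ s * y := by rw [h3]; simp only [mul_assoc]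
          _ = Z * (y ^ b * x ^ s) * y := by rw [← zyp]; simp only [mul_assoc]
          _ = Z * (x ^ s * y ^ (b + 1)) := by rw [ih, pow_succ]; simp only [mul_assoc]
    calc Z * (x ^ a * y ^ b) * (x ^ s * y ^ r) = (Z * x ^ a) * (y ^ b * x ^ s) * y ^ r := by
          simp only [mul_assoc]
      _ = x ^ a * (Z * (y ^ b * x ^ s)) * y ^ r := by rw [zxp]; simp only [mul_assoc]
      _ = (x ^ a * Z) * (x ^ s * y ^ b) * y ^ r := by rw [h2]; simp only [mul_assoc]
      _ = _ := by rw [← zxp]; simp only [mul_assoc]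
  have fin : ∀ c : MM β, c * (Z * (x ^ p * y ^ q)) * (x ^ s * y ^ r) = c * (Z * (x * y)) := by
    intro c
    rw [mul_assoc, key, mul_assoc Z, ← pow_add, px _ 1 hs, pow_one]
    congr 1
    calc Z * x * y ^ q * y ^ r = x * (Z * (y ^ q * y ^ r)) := by rw [zx]; simp only [mul_assoc]
      _ = x * (Z * y) := by rw [← pow_add, py _ 1 hr, pow_one]
      _ = Z * (x * y) := by rw [← mul_assoc, ← zx, mul_assoc]
  have hpp : Z * (x ^ p' * y ^ q') = Z * (x ^ p * y ^ q) := by
    calc Z * (x ^ p' * y ^ q') = (Z * x ^ p') * y ^ q' := by rw [mul_assoc]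
      _ = (Z * x ^ p) * y ^ q' := by rw [px']
      _ = x ^ p * (Z * y ^ q') := by rw [zxp, mul_assoc]
      _ = x ^ p * (Z * y ^ q) := by rw [py']
      _ = Z * (x ^ p * y ^ q) := by rw [← mul_assoc, ← zxp, mul_assoc]
  have h2 : x * y * t * (Z * (x * y)) = y * x * t * (Z * (x * y)) := by
    calc x * y * t * (Z * (x * y)) = x * y * t * (Z * (x ^ p * y ^ q)) * (x ^ s * y ^ r) :=
          (fin _).symm
      _ = x * y * t * (E * Z) * (x ^ s * y ^ r) := by rw [← e0, ← k0]
      _ = (x * (y * (t * E))) * (Z * (x ^ s * y ^ r)) := by simp only [mul_assoc]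
      _ = (y * (x * (t * E'))) * (Z * (x ^ s * y ^ r)) := by rw [h]
      _ = y * x * t * (E' * Z) * (x ^ s * y ^ r) := by simp only [mul_assoc]
      _ = y * x * t * (Z * (x ^ p * y ^ q)) * (x ^ s * y ^ r) := by rw [k0', e0', hpp]
      _ = _ := fin _
  have h3 : Z * (x * y) = x ^ (2 * n) * x * (y ^ (2 * n) * y) := by
    calc Z * (x * y) = x * Z * y := by rw [← mul_assoc, zx]
      _ = x * (x ^ (2 * n) * y ^ (2 * n)) * y := by rw [hz]
      _ = (x * x ^ (2 * n)) * (y ^ (2 * n) * y) := by simp only [mul_assoc]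
      _ = _ := by rw [← pow_succ', pow_succ]
  have q1 : ∀ a b : MM β, a * b * a = a * b * (a ^ (2 * n) * a) := by
    intro a b
    have h4 := gam_rr H a b 1 le_rfl (m := 2 * n + 1) (by
      unfold Nat.ModEq
      rw [Nat.add_comm, show 2 * n = n * 2 by ring, Nat.add_mul_mod_self_left]) (by omega)
    rw [pow_one, pow_succ] at h4
    exact h4
  have l1 : x * (y * (t * (x * y))) = x * y * t * (Z * (x * y)) := by
    rw [h3]
    calc x * (y * (t * (x * y))) = (x * (y * t) * x) * y := by simp only [mul_assoc]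
      _ = (x * (y * t) * (x ^ (2 * n) * x)) * y := by rw [q1 x (y * t)]
      _ = x * (y * (t * (x ^ (2 * n) * x)) * y) := by simp only [mul_assoc]
      _ = x * (y * (t * (x ^ (2 * n) * x)) * (y ^ (2 * n) * y)) := by rw [q1 y]
      _ = _ := by simp only [mul_assoc]
  have l2 : y * (x * (t * (x * y))) = y * x * t * (Z * (x * y)) := by
    rw [h3]
    calc y * (x * (t * (x * y))) = y * (x * t * x) * y := by simp only [mul_assoc]
      _ = y * (x * t * (x ^ (2 * n) * x)) * y := by rw [q1 x t]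
      _ = y * (x * (t * (x ^ (2 * n) * x))) * y := by simp only [mul_assoc]
      _ = y * (x * (t * (x ^ (2 * n) * x))) * (y ^ (2 * n) * y) := by rw [q1 y]
      _ = _ := by simp only [mul_assoc]
  rw [l1, l2, h2]

/-- row NMC for all periods -/
theorem nmc (G : Gn n β) (hno : ¬ RR β [0, 1, 2, 0, 1] [1, 0, 2, 0, 1]) :
    ∀ w w' : List ℕ, RR β w w' → PC w → PC w' := by
  intro w w' h hw
  obtain ⟨m, rfl, hm, m0, m1⟩ := hw
  obtain ⟨k, hk, ek⟩ := MWK.H23.filt m 0 1 (by decide) hm m0
  obtain ⟨l, hl, el⟩ := MWK.H23.filt m 1 0 (by decide) (fun c hcm => (hm c hcm).symm) m1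
  have f1 := h.filter (fun c => decide (c ≠ 1))
  have f0 := h.filter (fun c => decide (c ≠ 0))
  have g1 : (0 :: 1 :: 2 :: m).filter (fun c => decide (c ≠ 1)) = 0 :: 2 :: List.replicate k 0 := by
    rw [List.filter_cons_of_pos (by decide), List.filter_cons_of_neg (by decide),
      List.filter_cons_of_pos (by decide), ek]
  have g0 : (0 :: 1 :: 2 :: m).filter (fun c => decide (c ≠ 0)) = 1 :: 2 :: List.replicate l 1 := by
    rw [List.filter_cons_of_neg (by decide), List.filter_cons_of_pos (by decide),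
      List.filter_cons_of_pos (by decide), el]
  rw [g1] at f1
  rw [g0] at f0
  obtain ⟨k', hk', ek'⟩ := nty G 0 2 (by decide) k _ hk f1
  obtain ⟨l', hl', el'⟩ := nty G 1 2 (by decide) l _ hl f0
  have h2 : 2 ∈ w' := by
    have h3 : 2 ∈ w'.filter (fun c => decide (c ≠ 1)) := by
      rw [ek']
      simp
    exact (List.mem_filter.1 h3).1
  obtain ⟨b, m', e, hb2⟩ : ∃ b m', w' = b ++ 2 :: m' ∧ 2 ∉ b := by
    obtain ⟨s, t, h4, h5⟩ := List.eq_append_cons_of_mem h2
    exact ⟨s, t, h4, h5⟩
  rw [e, List.filter_append, List.filter_cons_of_pos (by decide)] at ek' el'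
  have a1' := (List.append_cons_inj_of_notMem (x₁ := [0]) (z₁ := List.replicate k' 0)
    (x₂ := b.filter (fun c => decide (c ≠ 1))) (z₂ := m'.filter (fun c => decide (c ≠ 1)))
    (a₁ := 2) (a₂ := 2) (by decide) (by
      intro h9
      exact absurd (List.eq_of_mem_replicate h9) (by decide))).1 ek'.symm
  have a0' := (List.append_cons_inj_of_notMem (x₁ := [1]) (z₁ := List.replicate l' 1)
    (x₂ := b.filter (fun c => decide (c ≠ 0))) (z₂ := m'.filter (fun c => decide (c ≠ 0)))
    (a₁ := 2) (a₂ := 2) (by decide) (by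
      intro h9
      exact absurd (List.eq_of_mem_replicate h9) (by decide))).1 el'.symm
  have a1 := And.intro a1'.1.symm (And.intro a1'.2.1.symm a1'.2.2.symm)
  have a0 := And.intro a0'.1.symm (And.intro a0'.2.1.symm a0'.2.2.symm)
  have hm' : ∀ c ∈ m', c = 0 ∨ c = 1 := by
    intro c hcm
    by_cases h7 : c = 1
    · exact Or.inr h7
    · left
      have h8 : c ∈ m'.filter (fun c => decide (c ≠ 1)) := by
        rw [List.mem_filter]
        exact ⟨hcm, by simpa using h7⟩
      rw [a1.2.2] at h8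
      exact List.eq_of_mem_replicate h8
  have m0' : 0 ∈ m' := by
    have h8 : 0 ∈ m'.filter (fun c => decide (c ≠ 1)) := by
      rw [a1.2.2, List.mem_replicate]
      exact ⟨by omega, rfl⟩
    exact (List.mem_filter.1 h8).1
  have m1' : 1 ∈ m' := by
    have h8 : 1 ∈ m'.filter (fun c => decide (c ≠ 0)) := by
      rw [a0.2.2, List.mem_replicate]
      exact ⟨by omega, rfl⟩
    exact (List.mem_filter.1 h8).1
  rcases MWK.H23.two_case b a1.1 a0.1 with rfl | rfl
  · exact ⟨m', by rw [e]; rfl, hm', m0', m1'⟩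
  · exfalso
    apply hno
    rw [e] at h
    exact exch G h hm hm' m0 m1

/-- `x^k y ~ x^b y x^c` with `k ≥ 2`, `c ≥ 1`, `b + c ≥ 2` gives `x²y ~ x²yx^n` -/
theorem eid (H : Hg n β) {k b c : ℕ} (hk : 2 ≤ k) (hc : 1 ≤ c)
    (h : RR β (List.replicate k 0 ++ [1]) (List.replicate b 0 ++ 1 :: List.replicate c 0)) :
    RR β [0, 0, 1] ([0, 0, 1] ++ List.replicate n 0) := by
  have hn := H.pos
  have W := H.wc
  rw [rr_iff] at h ⊢
  simp only [ev_append, ev_cons, ev_rep, ev_nil, mul_one] at h ⊢
  generalize cn β 0 = x at *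
  generalize cn β 1 = y at *
  obtain ⟨m, hm2, hm⟩ : ∃ m, 2 ≤ m ∧ m + k ≡ 2 [MOD n] := by
    refine ⟨n * k + 2 * n + 2 - k, ?_, ?_⟩
    · have : k ≤ n * k := Nat.le_mul_of_pos_left k hn
      omega
    · have : k ≤ n * k := Nat.le_mul_of_pos_left k hn
      rw [Nat.sub_add_cancel (by omega)]
      have e : n * k + 2 * n + 2 = 2 + n * (k + 2) := by ring
      rw [e]
      unfold Nat.ModEq
      rw [Nat.add_mul_mod_self_left]
  -- `x²y = x^B y x^c`
  have h1 : x ^ 2 * y = x ^ (m + b) * y * x ^ c := by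
    have h2 := congrArg (fun z => x ^ m * z) h
    simp only [← mul_assoc, ← pow_add] at h2
    rw [W.pw x (i := m + k) (j := 2) (by omega) le_rfl hm] at h2
    exact h2
  obtain ⟨d, hd⟩ : ∃ d, m + b = 2 + d := ⟨m + b - 2, by omega⟩
  rw [hd] at h1
  have h3 : ∀ i : ℕ, x ^ 2 * y = x ^ (2 + i * d) * y * x ^ (i * c) := by
    intro i
    induction i with
    | zero => simp
    | succ i ih =>
      calc x ^ 2 * y = x ^ (2 + i * d) * y * x ^ (i * c) := ih
        _ = x ^ (i * d) * (x ^ 2 * y) * x ^ (i * c) := by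
            rw [Nat.add_comm, pow_add]; simp only [mul_assoc]
        _ = x ^ (i * d) * (x ^ (2 + d) * y * x ^ c) * x ^ (i * c) := by rw [h1]
        _ = (x ^ (i * d) * x ^ (2 + d)) * y * (x ^ c * x ^ (i * c)) := by simp only [mul_assoc]
        _ = _ := by
            rw [← pow_add, ← pow_add]
            have e1 : i * d + (2 + d) = 2 + (i + 1) * d := by ring
            have e2 : c + i * c = (i + 1) * c := by ring
            rw [e1, e2]
  have h4 := h3 n
  rw [W.perk x le_rfl d] at h4
  have h5 : x * y * x ^ (n * c) = x * y * x ^ n := by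
    apply gam_rr H x y _ (by nlinarith) _ hn
    unfold Nat.ModEq
    simp
  calc x * (x * y) = x ^ 2 * y := by rw [pow_two, mul_assoc]
    _ = x ^ 2 * y * x ^ (n * c) := h4
    _ = x * (x * y * x ^ (n * c)) := by rw [pow_two]; simp only [mul_assoc]
    _ = x * (x * y * x ^ n) := by rw [h5]
    _ = _ := by simp only [mul_assoc]

/-- row NMD for all periods -/
theorem nmd (G : Gn n β) (hE : ¬ RR β [0, 0, 1] ([0, 0, 1] ++ List.replicate n 0)) :
    ∀ w w' : List ℕ, RR β w w' → PD w → PD w' := by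
  intro w w' h hPD
  have hcr := G.hg.ncr
  obtain ⟨hlw, ⟨k, hk, hf1⟩, ⟨l, hl, hf0⟩⟩ := hPD
  have hc' : ∀ c ∈ w', c = 0 ∨ c = 1 ∨ c = 2 ∨ c = 3 :=
    fun c hc => hlw c ((ctn hcr h c).2 hc)
  have r1 : RR β (0 :: 2 :: (List.replicate k 0 ++ [3])) (w'.filter (fun c => decide (c ≠ 1))) := by
    have := h.filter (fun c => decide (c ≠ 1))
    rw [hf1] at this
    exact this
  obtain ⟨a, ha, hwa⟩ : ∃ a, 1 ≤ a ∧ (w'.filter (fun c => decide (c ≠ 1))).filter
      (fun c => decide (c ≠ 3)) = 0 :: 2 :: List.replicate a 0 := by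
    have r2 := r1.filter (fun c => decide (c ≠ 3))
    have e : (0 :: 2 :: (List.replicate k 0 ++ [3])).filter (fun c => decide (c ≠ 3)) =
        0 :: 2 :: List.replicate k 0 := by
      simp [List.filter_cons, List.filter_append]
    rw [e] at r2
    exact nty G 0 2 (by decide) k _ hk r2
  have hc3 : (w'.filter (fun c => decide (c ≠ 1))).count 3 = 1 := by
    refine smn hcr r1 3 ?_
    simp [List.count_cons, List.count_append, List.count_replicate]
  obtain ⟨A, B, hAB, hA3⟩ := List.eq_append_cons_of_mem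
    (List.count_pos_iff.1 (by omega : 0 < (w'.filter (fun c => decide (c ≠ 1))).count 3))
  have hB3 : 3 ∉ B := by
    intro hm
    have h1 := List.count_pos_iff.2 hm
    rw [hAB, List.count_append, List.count_cons] at hc3
    simp at hc3
    omega
  have fA : A.filter (fun c => decide (c ≠ 3)) = A := by
    rw [List.filter_eq_self]
    intro c hc
    rw [decide_eq_true_eq]
    rintro rfl
    exact hA3 hc
  have fB : B.filter (fun c => decide (c ≠ 3)) = B := by
    rw [List.filter_eq_self]
    intro c hc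
    rw [decide_eq_true_eq]
    rintro rfl
    exact hB3 hc
  have hABe : A ++ B = 0 :: 2 :: List.replicate a 0 := by
    rw [hAB, List.filter_append, List.filter_cons, fA, fB] at hwa
    simpa using hwa
  have hBnil : B = [] := by
    by_contra hne
    apply hE
    have hlet : ∀ c ∈ A ++ B, c = 0 ∨ c = 2 := by
      intro c hc
      rw [hABe] at hc
      rcases List.mem_cons.1 hc with h1 | h1
      · exact Or.inl h1
      · rcases List.mem_cons.1 h1 with h2 | h2
        · exact Or.inr h2
        · exact Or.inl (List.eq_of_mem_replicate h2)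
    have fA2 : A.filter (fun c => decide (c ≠ 2)) =
        List.replicate (A.filter (fun c => decide (c ≠ 2))).length 0 := by
      rw [List.eq_replicate_iff]
      refine ⟨rfl, fun c hc => ?_⟩
      rw [List.mem_filter, decide_eq_true_eq] at hc
      exact (hlet c (List.mem_append_left _ hc.1)).resolve_right hc.2
    have fB2 : B.filter (fun c => decide (c ≠ 2)) =
        List.replicate (B.filter (fun c => decide (c ≠ 2))).length 0 := by
      rw [List.eq_replicate_iff]
      refine ⟨rfl, fun c hc => ?_⟩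
      rw [List.mem_filter, decide_eq_true_eq] at hc
      exact (hlet c (List.mem_append_right _ hc.1)).resolve_right hc.2
    have h0B : 0 ∈ B := by
      have h1 : (A ++ B).getLast? = some 0 := by
        rw [hABe, show (0 :: 2 :: List.replicate a 0 : List ℕ) =
          [0, 2] ++ List.replicate a 0 from rfl]
        rw [List.getLast?_append_of_ne_nil _ (by
          intro h0
          have := congrArg List.length h0
          simp at this
          omega)]
        rw [List.getLast?_replicate, if_neg (by omega)]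
      rw [List.getLast?_append_of_ne_nil _ hne] at h1
      exact List.mem_of_getLast? h1
    have hc1 : 1 ≤ (B.filter (fun c => decide (c ≠ 2))).length := by
      have : 0 ∈ B.filter (fun c => decide (c ≠ 2)) := by
        rw [List.mem_filter]
        exact ⟨h0B, by decide⟩
      exact List.length_pos_of_mem this
    have r3 := r1.filter (fun c => decide (c ≠ 2))
    have e2 : (A ++ 3 :: B).filter (fun c => decide (c ≠ 2)) =
        A.filter (fun c => decide (c ≠ 2)) ++ 3 :: B.filter (fun c => decide (c ≠ 2)) := by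
      rw [List.filter_append, List.filter_cons]
      simp
    have e1 : (0 :: 2 :: (List.replicate k 0 ++ [3])).filter (fun c => decide (c ≠ 2)) =
        List.replicate (k + 1) 0 ++ [3] := by
      simp [List.filter_cons, List.filter_append, List.replicate_succ]
    rw [hAB, e2, e1, fA2, fB2] at r3
    have r4 := r3.sub (fun c => if c = 3 then [1] else [0])
    have es : ∀ j : ℕ, (List.replicate j 0).flatMap (fun c => if c = 3 then [1] else [0]) =
        List.replicate j 0 := by
      intro j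
      induction j with
      | zero => rfl
      | succ j ih => rw [List.replicate_succ, List.flatMap_cons, ih]; rfl
    have e3 : ∀ i : ℕ, (List.replicate i 0 ++ [3]).flatMap (fun c => if c = 3 then [1] else [0]) =
        List.replicate i 0 ++ [1] := by
      intro i
      rw [List.flatMap_append, es]
      rfl
    have e4 : ∀ i j : ℕ, (List.replicate i 0 ++ 3 :: List.replicate j 0).flatMap
        (fun c => if c = 3 then [1] else [0]) = List.replicate i 0 ++ 1 :: List.replicate j 0 := by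
      intro i j
      rw [List.flatMap_append, List.flatMap_cons, es, es]
      rfl
    rw [e3, e4] at r4
    exact eid G.hg (by omega) hc1 r4
  have hw1 : w'.filter (fun c => decide (c ≠ 1)) = 0 :: 2 :: (List.replicate a 0 ++ [3]) := by
    rw [hBnil, List.append_nil] at hABe
    rw [hAB, hBnil, hABe]
    rfl
  refine ⟨hc', ⟨a, ha, hw1⟩, ?_⟩
  have s1 : RR β (1 :: 2 :: 3 :: List.replicate l 1) (w'.filter (fun c => decide (c ≠ 0))) := by
    have := h.filter (fun c => decide (c ≠ 0))
    rw [hf0] at this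
    exact this
  obtain ⟨p, hp, hwp⟩ : ∃ p, 1 ≤ p ∧ (w'.filter (fun c => decide (c ≠ 0))).filter
      (fun c => decide (c ≠ 3)) = 1 :: 2 :: List.replicate p 1 := by
    have r2 := s1.filter (fun c => decide (c ≠ 3))
    have e : (1 :: 2 :: 3 :: List.replicate l 1).filter (fun c => decide (c ≠ 3)) =
        1 :: 2 :: List.replicate l 1 := by
      simp [List.filter_cons]
    rw [e] at r2
    exact nty G 1 2 (by decide) l _ hl r2
  obtain ⟨q, hq, hwq⟩ : ∃ q, 1 ≤ q ∧ (w'.filter (fun c => decide (c ≠ 0))).filter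
      (fun c => decide (c ≠ 2)) = 1 :: 3 :: List.replicate q 1 := by
    have r2 := s1.filter (fun c => decide (c ≠ 2))
    have e : (1 :: 2 :: 3 :: List.replicate l 1).filter (fun c => decide (c ≠ 2)) =
        1 :: 3 :: List.replicate l 1 := by
      simp [List.filter_cons]
    rw [e] at r2
    exact nty G 1 3 (by decide) l _ hl r2
  have hw01 : (w'.filter (fun c => decide (c ≠ 0))).filter (fun c => decide (c ≠ 1)) = [2, 3] := by
    rw [List.filter_filter]
    have e1 : w'.filter (fun a => decide (a ≠ 1) && decide (a ≠ 0)) =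
        (w'.filter (fun c => decide (c ≠ 1))).filter (fun c => decide (c ≠ 0)) := by
      rw [List.filter_filter]
      refine List.filter_congr (fun c _ => ?_)
      rw [Bool.and_comm]
    rw [e1, hw1]
    simp [List.filter_cons, List.filter_append]
  refine ⟨q, hq, MWK.H45.three _ ?_ p q hwp hwq hw01⟩
  intro c hc
  rw [List.mem_filter, decide_eq_true_eq] at hc
  exact (hc' c hc.1).resolve_left hc.2

/-- **Necessity in the gamma world for all periods** -/
theorem gam_nec (G : Gn n β) :
    (∀ i j : ℕ, 2 ≤ i → 2 ≤ j → RR β (List.replicate i 0 ++ List.replicate j 1)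
      (List.replicate j 1 ++ List.replicate i 0)) ∧
    (RR β [0, 0, 1] ([0, 0, 1] ++ List.replicate n 0) ∨ RR β [0, 1, 2, 0, 1] [1, 0, 2, 0, 1]) := by
  constructor
  · intro i j hi hj
    rw [rr_iff, ev_append, ev_append, ev_rep, ev_rep]
    exact r0 G _ _ hi hj
  · by_contra h
    exact pen1 MWK.H76.nec MWK.H89.ntd G.hg.hm (nmc G (fun h1 => h (Or.inr h1)))
      (nmd G (fun h1 => h (Or.inl h1)))

/-- the form with the literal identities of MWU -/
theorem gam_nec' {n : ℕ} {β : FIC} (hn : 1 ≤ n) (hp : MWZ.Per n (RR β)) (hcr : MWU.NCR β)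
    (hm : ModF β) (hga : MWU.Gam n (RR β)) (hbe : ¬ MWU.Bet n (RR β)) :
    (∀ i j : ℕ, 2 ≤ i → 2 ≤ j → RR β (List.replicate i 0 ++ List.replicate j 1)
      (List.replicate j 1 ++ List.replicate i 0)) ∧
    (RR β [0, 0, 1] ([0, 0, 1] ++ List.replicate n 0) ∨ RR β [0, 1, 2, 0, 1] [1, 0, 2, 0, 1]) :=
  gam_nec ⟨⟨hn, hp, hga, hm, hcr⟩, hbe⟩

end Pool.Agent.Helper85_GN
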