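import Pool.Agent.Helper70_MWR.Gw
import Pool.Agent.Helper53_MWK.NKA
import Pool.Agent.Helper19_MWK.NTB
import Pool.Agent.Helper76_MWK.NEC
import Pool.Agent.Helper89_MWK.NTD
import Pool.Agent.Helper23_MWK.NMC
import Pool.Agent.Helper45_MWK.NMD
import Pool.Agent.Helper3_MWK.NAA
import Pool.Agent.Helper50_MWK.NPB

/-!
# Necessity in the gamma world, all periods (helper85)

`x² ≈ x^(n+2)`, `xyx ≈ xyx^(n+1)`, not `xyx ≈ x^(n+1)yx^(n+1)`, modular, not completely regular:
`x^a y^b ≈ y^b x^a` for `a, b ≥ 2`, and `x²y ≈ x²yx^n` or `xytxy ≈ yxtxy`.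
The pentagons are those of period one (rows NR0, ND1 of block MWK).
-/

set_option autoImplicit false

namespace Pool.Agent.Helper85_GN

open Pool.Agent.Helper14_MV Pool.Agent.Helper2_MV
open Pool.Agent.Helper44_MVT hiding ev_rep
open Pool.Agent.MWK (PA PB PC PD NkaStmt NtbStmt NecStmt NtdStmt)
open Pool.Agent.MWF (gaml le_gaml gaml_keep RR_gaml pent)
open Pool.Agent.Helper70_MWR (Hg Wc ev_rep ncr_rep)

/-- the pentagon of the row NR0 -/
theorem pen0 (hKA : NkaStmt) (hTB : NtbStmt) {β : FIC} (hM : ModF β)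
    (hA : ∀ w w', RR β w w' → PA w → PA w') (hB : ∀ w w', RR β w w' → PB w → PB w') : False := by
  have hβσ : β ≤ gaml PA := le_gaml hA
  have hβτ : β ≤ gaml PB := le_gaml hB
  let P : List ℕ → Prop := fun w => PB w ∧ RR (gaml PA) w [0, 2, 2, 1, 0]
  have hβP : β ≤ gaml P := le_gaml (fun a b hab hP =>
    ⟨hB a b hab hP.1, (gaml PA).trans ((gaml PA).symm (hβσ _ _ hab)) hP.2⟩)
  have hβρ : β ≤ FIC.inf (gaml P) (gaml PB) := FIC.le_inf hβP hβτ
  have hρτ : FIC.inf (gaml P) (gaml PB) ≤ gaml PB := FIC.inf_le_right _ _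
  have c1 : RR (gaml PA) [0, 2, 2, 1, 0] [0, 0, 2, 2, 1, 0] :=
    RR.sub (fun c => if c = 1 then [2, 2, 1] else [c]) hKA
  have c3 : RR (gaml PA) [2, 2, 0, 0, 1, 0] [2, 2, 0, 1, 0] :=
    (RR.refl [2, 2]).append (RR.symm hKA)
  have c2 : RR (FIC.inf (gaml P) (gaml PB)) [0, 0, 2, 2, 1, 0] [2, 2, 0, 0, 1, 0] := by
    constructor
    · refine RR_gaml (fun f p q => ⟨fun h => ?_, fun h => ?_⟩)
      · have e := hTB.2 f p q (Or.inl h.1)
        rw [← e]
        exact h
      · have e := hTB.2 f p q (Or.inr h.1)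
        rw [e]
        exact h
    · refine RR_gaml (fun f p q => ⟨fun h => ?_, fun h => ?_⟩)
      · have e := hTB.2 f p q (Or.inl h)
        rw [← e]
        exact h
      · have e := hTB.2 f p q (Or.inr h)
        rw [e]
        exact h
  have hs : RR (FIC.sup (FIC.inf (gaml P) (gaml PB)) (gaml PA)) [0, 2, 2, 1, 0]
      [2, 2, 0, 1, 0] :=
    (FIC.sup _ _).trans (FIC.le_sup_right _ _ _ _ c1)
      ((FIC.sup _ _).trans (FIC.le_sup_left _ _ _ _ c2) (FIC.le_sup_right _ _ _ _ c3))
  have hu : P [0, 2, 2, 1, 0] := by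
    refine ⟨⟨by simp, ⟨1, le_rfl, by decide⟩, ⟨2, le_rfl, by decide⟩⟩, RR.refl _⟩
  have hv : P [2, 2, 0, 1, 0] := pent hM hβρ hβσ hβτ hρτ (P := P)
    (fun a b h hP => (gaml_keep h.1).1 hP)
    (fun a b h1 h2 hP => ⟨(gaml_keep h2).1 hP.1, (gaml PA).trans ((gaml PA).symm h1) hP.2⟩)
    hs hTB.1 hu
  have h1 : RR (gaml PA) [0, 0, 1, 1, 1, 1] [1, 1, 0, 0, 1, 1] :=
    RR.sub (fun c => if c = 0 then [1, 1] else if c = 2 then [0] else []) hv.2
  have h2 : PA [0, 0, 1, 1, 1, 1] := ⟨2, 4, le_rfl, by norm_num, by decide⟩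
  obtain ⟨i, j, hi, hj, he⟩ := (gaml_keep h1).1 h2
  obtain ⟨i', rfl⟩ : ∃ i', i = i' + 1 := ⟨i - 1, by omega⟩
  rw [List.replicate_succ, List.cons_append] at he
  simp at he

/-- the pentagon of the row ND1 -/
theorem pen1 (hnec : NecStmt) (hntd : NtdStmt) {β : FIC} (hm : ModF β)
    (kC : ∀ w w', RR β w w' → PC w → PC w') (kD : ∀ w w', RR β w w' → PD w → PD w') : False := by
  obtain ⟨σ, hσ⟩ : ∃ σ : FIC, σ = gaml PC := ⟨_, rfl⟩
  obtain ⟨τ, hτ⟩ : ∃ τ : FIC, τ = gaml PD := ⟨_, rfl⟩
  obtain ⟨u, hu⟩ : ∃ u : List ℕ, u = [0, 1, 2, 0, 3, 1] := ⟨_, rfl⟩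
  obtain ⟨v, hv⟩ : ∃ v : List ℕ, v = [1, 0, 2, 0, 3, 1] := ⟨_, rfl⟩
  obtain ⟨P, hP⟩ : ∃ P : List ℕ → Prop, P = fun w => PD w ∧ RR σ w u := ⟨_, rfl⟩
  have hβσ : β ≤ σ := by rw [hσ]; exact le_gaml kC
  have hβτ : β ≤ τ := by rw [hτ]; exact le_gaml kD
  have hβP : β ≤ gaml P := by
    apply le_gaml
    intro a b hab ha
    rw [hP] at ha ⊢
    exact ⟨kD a b hab ha.1, σ.trans (RR.symm (hβσ _ _ hab)) ha.2⟩
  have hβρ : β ≤ FIC.inf (gaml P) τ := FIC.le_inf hβP hβτ
  have hρτ : FIC.inf (gaml P) τ ≤ τ := FIC.inf_le_right _ _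
  have ht : RR τ u v := by rw [hτ, hu, hv]; exact hntd.1
  have e1 : RR σ [0, 0, 1] [0, 0, 1, 0] := by rw [hσ]; exact hnec.1
  have e2 : RR σ [0, 1, 0] [0, 1, 0, 0] := by rw [hσ]; exact hnec.2
  have e3 : RR σ [0, 1, 0, 2] [0, 1, 0, 2, 0] := by
    have a1 : RR σ [0, 1, 0, 2] [0, 1, 0, 0, 2] := e2.append (RR.refl [2])
    have a2 : RR σ [0, 0, 2] [0, 0, 2, 0] := e1.sub (fun c => if c = 1 then [2] else [c])
    have a3 : RR σ [0, 1, 0, 0, 2] [0, 1, 0, 0, 2, 0] := (RR.refl [0, 1]).append a2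
    have a4 : RR σ [0, 1, 0, 0, 2, 0] [0, 1, 0, 2, 0] := e2.symm.append (RR.refl [2, 0])
    exact σ.trans a1 (σ.trans a3 a4)
  have c1 : RR σ u [0, 1, 2, 0, 3, 0, 1] := by
    rw [hu]
    have a1 := e3.sub (fun c => if c = 0 then [0] else if c = 1 then [1, 2] else [3])
    have a2 := a1.append (RR.refl [1])
    exact a2
  have c3 : RR σ [1, 0, 2, 0, 3, 0, 1] v := by
    rw [hv]
    have a1 := e3.sub (fun c => if c = 0 then [0] else if c = 1 then [2] else [3])
    have a2 := (RR.refl [1]).append (a1.append (RR.refl [1]))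
    exact a2.symm
  have c2 : RR (FIC.inf (gaml P) τ) [0, 1, 2, 0, 3, 0, 1] [1, 0, 2, 0, 3, 0, 1] := by
    have a0 : RR (FIC.inf (gaml P) τ) [0, 1, 2, 0, 1] [1, 0, 2, 0, 1] := by
      refine ⟨?_, ?_⟩
      · refine RR_gaml (P := P) (l := [0, 1, 2, 0, 1]) (l' := [1, 0, 2, 0, 1]) ?_
        intro f p q
        constructor
        · intro h
          have h1 : PD (p ++ [0, 1, 2, 0, 1].flatMap f ++ q) := by
            rw [hP] at h
            exact h.1
          rw [← hntd.2 f p q (Or.inl h1)]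
          exact h
        · intro h
          have h1 : PD (p ++ [1, 0, 2, 0, 1].flatMap f ++ q) := by
            rw [hP] at h
            exact h.1
          rw [hntd.2 f p q (Or.inr h1)]
          exact h
      · rw [hτ]
        refine RR_gaml (P := PD) (l := [0, 1, 2, 0, 1]) (l' := [1, 0, 2, 0, 1]) ?_
        intro f p q
        constructor
        · intro h
          rw [← hntd.2 f p q (Or.inl h)]
          exact h
        · intro h
          rw [hntd.2 f p q (Or.inr h)]
          exact h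
    have a1 := a0.sub (fun c => if c = 2 then [2, 0, 3] else [c])
    exact a1
  have hs : RR (FIC.sup (FIC.inf (gaml P) τ) σ) u v := by
    have b1 : RR (FIC.sup (FIC.inf (gaml P) τ) σ) u [0, 1, 2, 0, 3, 0, 1] :=
      FIC.le_sup_right _ _ _ _ c1
    have b2 : RR (FIC.sup (FIC.inf (gaml P) τ) σ) [0, 1, 2, 0, 3, 0, 1] [1, 0, 2, 0, 3, 0, 1] :=
      FIC.le_sup_left _ _ _ _ c2
    have b3 : RR (FIC.sup (FIC.inf (gaml P) τ) σ) [1, 0, 2, 0, 3, 0, 1] v :=
      FIC.le_sup_right _ _ _ _ c3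
    exact (FIC.sup (FIC.inf (gaml P) τ) σ).trans b1
      ((FIC.sup (FIC.inf (gaml P) τ) σ).trans b2 b3)
  have hPu : P u := by
    rw [hP]
    refine ⟨?_, RR.refl u⟩
    rw [hu]
    refine ⟨?_, ⟨1, le_rfl, ?_⟩, ⟨1, le_rfl, ?_⟩⟩
    · intro c hc
      simp at hc
      omega
    · decide
    · decide
  have hPv : P v := by
    refine pent hm hβρ hβσ hβτ hρτ (P := P) ?_ ?_ hs ht hPu
    · intro a b hab ha
      exact (gaml_keep hab.1).1 ha
    · intro a b hab hab' ha
      rw [hP] at ha ⊢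
      refine ⟨?_, σ.trans (RR.symm hab) ha.2⟩
      rw [hτ] at hab'
      exact (gaml_keep hab').1 ha.1
  rw [hP] at hPv
  have h1 : RR σ v u := hPv.2
  have h2 : RR σ [1, 0, 2, 0, 1] [0, 1, 2, 0, 1] := by
    have h3 := h1.filter (fun c => decide (c ≠ 3))
    rw [hu, hv] at h3
    exact h3
  rw [hσ] at h2
  have h4 : PC [0, 1, 2, 0, 1] := by
    refine ⟨[0, 1], rfl, ?_, ?_, ?_⟩
    · intro c hc
      simpa using hc
    · simp
    · simp
  obtain ⟨m, hm1, -⟩ := (gaml_keep h2).2 h4
  simp at hm1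

/-! ### content, simple letters -/

section

variable {n : ℕ} {β : FIC}

theorem ctn (h : ∀ k : ℕ, 1 ≤ k → ¬ β.r (lx ^ (k + 1)) lx) {u v : List ℕ} (huv : RR β u v)
    (c : ℕ) : c ∈ u ↔ c ∈ v := by
  have key : ∀ {u v : List ℕ}, RR β u v → c ∈ u → c ∈ v := by
    intro u v huv hc
    by_contra hv
    have h1 := (RR.filter (fun x => x == c) huv).sub (fun _ => [0])
    have e : ∀ l : List ℕ, (l.filter (fun x => x == c)).flatMap (fun _ => [0]) =
        List.replicate (l.count c) 0 := by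
      intro l
      rw [List.filter_beq]
      generalize l.count c = k
      induction k with
      | zero => rfl
      | succ k ih => rw [List.replicate_succ, List.flatMap_cons, ih]; rfl
    rw [e, e, List.count_eq_zero.2 hv] at h1
    have h2 : RR β (List.replicate (u.count c) 0 ++ [0]) (List.replicate 0 0 ++ [0]) :=
      h1.append (RR.refl _)
    have e1 : List.replicate (u.count c) 0 ++ [0] = List.replicate (u.count c + 1) 0 := by
      rw [List.replicate_succ']
    have e2 : List.replicate 0 0 ++ [0] = List.replicate 1 0 := rfl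
    rw [e1, e2] at h2
    have h3 := List.count_pos_iff.2 hc
    have h4 := ncr_rep h h2 (by omega)
    omega
  exact ⟨key huv, key huv.symm⟩

theorem smn (h : ∀ k : ℕ, 1 ≤ k → ¬ β.r (lx ^ (k + 1)) lx) {u v : List ℕ} (huv : RR β u v)
    (c : ℕ) (hc : u.count c = 1) : v.count c = 1 := by
  have h1 : c ∈ v := (ctn h huv c).1 (List.count_pos_iff.1 (by omega))
  have h2 := List.count_pos_iff.2 h1
  have h3 := Helper70_MWR.cnt h huv c
  omega

/-- the gamma world outside beta -/
structure Gn (n : ℕ) (β : FIC) : Prop where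
  hg : Hg n β
  nb : ¬ RR β [0, 1, 0] (List.replicate (n + 1) 0 ++ 1 :: List.replicate (n + 1) 0)

theorem per_rr (H : Hg n β) (c : ℕ) {i j : ℕ} (hi : 2 ≤ i) (hj : 2 ≤ j) (h : i ≡ j [MOD n]) :
    RR β (List.replicate i c) (List.replicate j c) := by
  rw [rr_iff, ev_rep, ev_rep]
  exact H.wc.pw _ hi hj h

/-- a non-first occurrence can be raised -/
theorem gam_rr (H : Hg n β) (a b : MM β) (k : ℕ) (hk : 1 ≤ k) {m : ℕ} (h : k ≡ m [MOD n])
    (hm : 1 ≤ m) : a * b * a ^ k = a * b * a ^ m := by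
  have h1 : a * b * a = a * b * (a ^ (2 * n) * a) := by
    have hn := H.pos
    have h2 := H.gam' a b
    have e : a ^ (n + 1) = a ^ (2 * n) * a := by
      rw [← pow_succ]
      apply H.wc.pw _ (by omega) (by omega)
      rw [show 2 * n + 1 = n + 1 + n by ring]
      exact (Nat.add_modEq_right).symm
    rw [h2, e]
  have h2 : ∀ k, 1 ≤ k → a * b * a ^ k = a * b * (a ^ (2 * n + k)) := by
    intro k hk
    obtain ⟨j, rfl⟩ := Nat.exists_eq_add_of_le' hk
    have e : a ^ (j + 1) = a * a ^ j := pow_succ' _ _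
    have e2 : a ^ (2 * n + (j + 1)) = a ^ (2 * n) * a * a ^ j := by
      rw [← pow_succ, ← pow_add]
      congr 1
      ring
    rw [e, e2, ← mul_assoc, h1]
    simp only [mul_assoc]
  have hn := H.pos
  rw [h2 k hk, h2 m hm]
  congr 1
  exact H.wc.pw _ (by omega) (by omega) (Nat.ModEq.add_left _ h)

/-- types `x t x^k` -/
theorem typ (G : Gn n β) {k a b : ℕ} (hk : 1 ≤ k) (ha : 2 ≤ a) :
    ¬ RR β (0 :: 1 :: List.replicate k 0) (List.replicate a 0 ++ 1 :: List.replicate b 0) := by
  intro h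
  have H := G.hg
  have hn := H.pos
  apply G.nb
  rw [rr_iff] at h ⊢
  simp only [ev_cons, ev_append, ev_rep, ev_nil, mul_one] at h ⊢
  generalize cn β 0 = x at h ⊢
  generalize cn β 1 = t at h ⊢
  -- `h : x * (t * x ^ k) = x ^ a * (t * x ^ b)`
  obtain ⟨m, hm1, hm2⟩ : ∃ m, 1 ≤ m ∧ k + m ≡ 1 [MOD n] := by
    refine ⟨n * k + (n + 1) - k, ?_, ?_⟩
    · have : k ≤ n * k := Nat.le_mul_of_pos_left k hn
      omega
    · have h1 : k ≤ n * k + (n + 1) := by
        have : k ≤ n * k := Nat.le_mul_of_pos_left k hn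
        omega
      rw [Nat.add_sub_cancel' h1]
      have e : n * k + (n + 1) = 1 + n * (k + 1) := by ring
      rw [e]
      unfold Nat.ModEq
      rw [Nat.add_mul_mod_self_left]
  have h1 : x * t * x = x ^ a * t * x ^ (b + m) := by
    have h2 : x * t * x ^ (k + m) = x ^ a * t * x ^ (b + m) := by
      rw [pow_add, pow_add]
      have := congrArg (fun z => z * x ^ m) h
      simpa only [mul_assoc] using this
    rw [← h2]
    have h3 := gam_rr H x t (k + m) (by omega) (m := 1) hm2 le_rfl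
    rw [h3, pow_one]
  have h4 : x ^ (n + 1) * t * x = x * t * x := by
    have h5 : x ^ (n + 1) * t * x = x ^ n * (x * t * x) := by
      rw [pow_succ]; simp only [mul_assoc]
    rw [h5, h1]
    have h6 : x ^ n * x ^ a = x ^ a := by
      rw [← pow_add, add_comm]
      exact H.wc.per1 x ha
    rw [← mul_assoc, ← mul_assoc, h6]
  calc x * (t * x) = x ^ (n + 1) * t * x := by rw [h4, mul_assoc]
    _ = x ^ n * (x * t * x) := by rw [pow_succ]; simp only [mul_assoc]
    _ = x ^ n * (x * t * x ^ (n + 1)) := by rw [H.gam']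
    _ = x ^ (n + 1) * (t * x ^ (n + 1)) := by rw [pow_succ]; simp only [mul_assoc]

/-- the type `x t x^k` is preserved (row NTY) -/
theorem nty (G : Gn n β) (x t : ℕ) (hxt : x ≠ t) (k : ℕ) (w' : List ℕ) (hk : 1 ≤ k)
    (h : RR β (x :: t :: List.replicate k x) w') :
    ∃ k', 1 ≤ k' ∧ w' = x :: t :: List.replicate k' x := by
  have hcr := G.hg.ncr
  have hct := ctn hcr h
  have hmem : ∀ c ∈ w', c = x ∨ c = t := by
    intro c hc
    have := (hct c).2 hc
    simp only [List.mem_cons, List.mem_replicate] at this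
    tauto
  have hct1 : w'.count t = 1 := by
    refine smn hcr h t ?_
    rw [List.count_cons_of_ne hxt, List.count_cons_self, List.count_replicate]
    simp [hxt]
  have hcx : w'.count x ≠ 1 := by
    intro h1
    have := smn hcr (RR.symm h) x h1
    rw [List.count_cons_self, List.count_cons_of_ne (Ne.symm hxt), List.count_replicate_self]
      at this
    omega
  have hcx0 : 0 < w'.count x := by
    rw [List.count_pos_iff, ← hct x]
    simp
  have htm : t ∈ w' := by
    rw [← List.count_pos_iff]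
    omega
  obtain ⟨A, B, hAB⟩ := List.append_of_mem htm
  have hc2 : A.count t + (B.count t + 1) = 1 := by
    have h1 := hct1
    rw [hAB, List.count_append, List.count_cons_self] at h1
    exact h1
  have hA : A = List.replicate A.length x := by
    rw [List.eq_replicate_iff]
    refine ⟨rfl, ?_⟩
    intro c hc
    rcases hmem c (by rw [hAB]; simp [hc]) with h1 | h1
    · exact h1
    · exfalso
      have : 0 < A.count t := List.count_pos_iff.2 (h1 ▸ hc)
      omega
  have hB : B = List.replicate B.length x := by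
    rw [List.eq_replicate_iff]
    refine ⟨rfl, ?_⟩
    intro c hc
    rcases hmem c (by rw [hAB]; simp [hc]) with h1 | h1
    · exact h1
    · exfalso
      have : 0 < B.count t := List.count_pos_iff.2 (h1 ▸ hc)
      omega
  generalize A.length = a at hA
  generalize B.length = b at hB
  subst hA hB
  have hab : w'.count x = a + b := by
    rw [hAB, List.count_append, List.count_cons_of_ne (Ne.symm hxt), List.count_replicate_self,
      List.count_replicate_self]
  have hR : RR β (0 :: 1 :: List.replicate k 0) (List.replicate a 0 ++ 1 :: List.replicate b 0) := by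
    have h1 := RR.sub (fun c => if c = x then [0] else [1]) h
    rw [hAB] at h1
    have e1 : ∀ m : ℕ, (List.replicate m x).flatMap (fun c => if c = x then [0] else [1]) =
        List.replicate m 0 := by
      intro m
      induction m with
      | zero => rfl
      | succ m ih =>
        rw [List.replicate_succ, List.flatMap_cons, ih, List.replicate_succ]
        simp
    simpa [List.flatMap_append, List.flatMap_cons, e1, hxt, Ne.symm hxt] using h1
  by_cases ha : 2 ≤ a
  · exact absurd hR (typ G hk ha)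
  · by_cases ha0 : a = 0
    · exfalso
      subst ha0
      have hb : 1 ≤ b := by omega
      have h1 : RR β ([0] ++ (0 :: 1 :: List.replicate k 0))
          ([0] ++ (List.replicate 0 0 ++ 1 :: List.replicate b 0)) :=
        RR.append (RR.refl _) hR
      exact typ G (k := b) (a := 2) (b := k) hb le_rfl (RR.symm h1)
    · have ha1 : a = 1 := by omega
      subst ha1
      refine ⟨b, by omega, ?_⟩
      rw [hAB]
      rfl

end

end Pool.Agent.Helper85_GN
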