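import Pool.Agent.Helper5_MWGP.GAP
import Pool.Agent.MWGR.Defs

/-!
# The residue crossing and the identity `I2` in the gamma world, all periods (helper85)

`RC`: `x³yxty ≈ x²yx²ty`.  With `xyx ≈ xyx^(n+1)`, `x^(n+1)y^(n+1) ≈ y^(n+1)x^(n+1)` and `It n` (`x^n` may be
inserted between two letters `x` over multiple letters) it gives `I2`.
-/

set_option autoImplicit false

namespace Pool.Agent.Helper85_GN

open Pool.Agent.Helper14_MV Pool.Agent.Helper2_MV Pool.Agent.MVO

/-- `x³yxty ≈ x²yx²ty` -/
def RC (S : List ℕ → List ℕ → Prop) : Prop := S [0, 0, 0, 1, 0, 2, 1] [0, 0, 1, 0, 0, 2, 1]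

variable {n : ℕ} {β : FIC}

theorem mul_mono {c w w' : List ℕ} (h : MVO.Sys.Mul c w) (hw : ∀ a, w.count a ≤ w'.count a) :
    MVO.Sys.Mul c w' := fun a ha => le_trans (h a ha) (hw a)

theorem mul_sub {c c' w : List ℕ} (h : MVO.Sys.Mul c w) (hc : ∀ a ∈ c', a ∈ c) :
    MVO.Sys.Mul c' w := fun a ha => h a (hc a ha)

/-- `It` for multiples of `n` -/
theorem itk (hit : MWGR.It n (RR β)) (k : ℕ) (p w w' q : List ℕ) (x : ℕ)
    (h : MVO.Sys.Mul (w ++ w') (p ++ x :: (w ++ (w' ++ x :: q)))) :
    RR β (p ++ x :: (w ++ (w' ++ x :: q)))
      (p ++ x :: (w ++ (List.replicate (n * k) x ++ (w' ++ x :: q)))) := by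
  induction k with
  | zero => exact RR.refl _
  | succ k ih =>
    refine β.trans ih ?_
    have h1 := hit p w (List.replicate (n * k) x ++ w') q x (by
      intro a ha
      have e : (p ++ x :: (w ++ (List.replicate (n * k) x ++ w' ++ x :: q))).count a =
          (p ++ x :: (w ++ (w' ++ x :: q))).count a + (List.replicate (n * k) x).count a := by
        simp only [List.count_append, List.count_cons]
        omega
      rw [e]
      rcases List.mem_append.1 ha with h1 | h1
      · have := h a (List.mem_append_left _ h1)
        omega
      · rcases List.mem_append.1 h1 with h2 | h2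
        · have h3 : a = x := (List.mem_replicate.1 h2).2
          have h4 : 2 ≤ (p ++ x :: (w ++ (w' ++ x :: q))).count a := by
            rw [h3]
            simp only [List.count_append, List.count_cons_self]
            omega
          omega
        · have := h a (List.mem_append_right _ h2)
          omega)
    have e1 : List.replicate (n * (k + 1)) x = List.replicate n x ++ List.replicate (n * k) x := by
      rw [List.replicate_append_replicate]
      congr 1
      ring
    rw [e1]
    have h2 : RR β (p ++ x :: (w ++ (List.replicate (n * k) x ++ (w' ++ x :: q))))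
        (p ++ x :: (w ++ (List.replicate n x ++ List.replicate (n * k) x ++ (w' ++ x :: q)))) := by
      simpa only [List.append_assoc] using h1
    exact h2

/-- the residue crossing for all exponents -/
theorem rc_gen (hrc : RC (RR β)) {a b : ℕ} (ha : 2 ≤ a) (hb : 1 ≤ b) (p T q : List ℕ) (x y : ℕ) :
    RR β (p ++ (List.replicate (a + 1) x ++ y :: (List.replicate b x ++ (T ++ y :: q))))
      (p ++ (List.replicate a x ++ y :: (List.replicate (b + 1) x ++ (T ++ y :: q)))) := by
  have h1 := RR.sub (β := β)
    (fun c => if c = 0 then [x] else if c = 1 then [y] else List.replicate (b - 1) x ++ T) hrc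
  have h2 : RR β (x :: x :: x :: y :: x :: (List.replicate (b - 1) x ++ T ++ [y]))
      (x :: x :: y :: x :: x :: (List.replicate (b - 1) x ++ T ++ [y])) := h1
  have h3 := ((RR.refl (β := β) (p ++ List.replicate (a - 2) x)).append h2).append
    (RR.refl (β := β) q)
  have e1 : p ++ List.replicate (a - 2) x ++
      x :: x :: x :: y :: x :: (List.replicate (b - 1) x ++ T ++ [y]) ++ q =
      p ++ (List.replicate (a + 1) x ++ y :: (List.replicate b x ++ (T ++ y :: q))) := by
    have f1 : List.replicate (a + 1) x = List.replicate (a - 2) x ++ [x, x, x] := by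
      have : [x, x, x] = List.replicate 3 x := rfl
      rw [this, List.replicate_append_replicate]
      congr 1
      omega
    have f2 : List.replicate b x = x :: List.replicate (b - 1) x := by
      rw [← List.replicate_succ]
      congr 1
      omega
    rw [f1, f2]
    simp
  have e2 : p ++ List.replicate (a - 2) x ++
      x :: x :: y :: x :: x :: (List.replicate (b - 1) x ++ T ++ [y]) ++ q =
      p ++ (List.replicate a x ++ y :: (List.replicate (b + 1) x ++ (T ++ y :: q))) := by
    have f1 : List.replicate a x = List.replicate (a - 2) x ++ [x, x] := by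
      have : [x, x] = List.replicate 2 x := rfl
      rw [this, List.replicate_append_replicate]
      congr 1
      omega
    have f2 : List.replicate (b + 1) x = x :: x :: List.replicate (b - 1) x := by
      rw [← List.replicate_succ, ← List.replicate_succ]
      congr 1
      omega
    rw [f1, f2]
    simp
  rw [e1, e2] at h3
  exact h3

/-- one letter is crossed -/
theorem cross (hn : 1 ≤ n) (hga : MWZ.Ga n (RR β)) (hrn : MWGP.Rn n (RR β))
    (hit : MWGR.It n (RR β)) (hrc : RC (RR β)) (p c d q : List ℕ) (x y : ℕ)
    (h : MVO.Sys.Mul (c ++ (y :: d)) (p ++ x :: (c ++ y :: x :: (d ++ x :: q)))) :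
    RR β (p ++ x :: (c ++ y :: x :: (d ++ x :: q))) (p ++ x :: (c ++ x :: y :: (d ++ x :: q))) := by
  by_cases hyx : y = x
  · subst hyx
    exact RR.refl _
  by_cases hy : y ∈ p ++ x :: c
  · have h1 := (MWGP.H5.gap n β hga hrn (p ++ x :: c) (d ++ x :: q) y x hy).2 (by simp)
    simpa only [List.append_assoc, List.cons_append] using h1
  -- `y` occurs behind
  have hy2 : y ∈ d ++ x :: q := by
    have h1 := h y (by simp)
    have h2 : (p ++ x :: (c ++ y :: x :: (d ++ x :: q))).count y =
        (p ++ x :: c).count y + (1 + (d ++ x :: q).count y) := by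
      simp only [List.count_append, List.count_cons]
      have : (x == y) = false := by
        rw [beq_eq_false_iff_ne]
        exact fun h => hyx h.symm
      simp only [this, beq_self_eq_true, if_true]
      simp
      omega
    rw [h2, List.count_eq_zero.2 hy] at h1
    exact List.count_pos_iff.1 (by omega)
  obtain ⟨T, q', hT⟩ := List.append_of_mem hy2
  -- step A
  have sA := itk hit 3 p c [y] (d ++ x :: q) x (by
    apply mul_sub (mul_mono h ?_) (c := c ++ (y :: d))
    · intro a ha
      rcases List.mem_append.1 ha with h1 | h1
      · exact List.mem_append_left _ h1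
      · rw [List.mem_singleton] at h1
        rw [h1]
        simp
    · intro a
      simp only [List.count_append, List.count_cons, List.count_nil]
      omega)
  -- step B
  have sB := (MWGP.H5.gap n β hga hrn (p ++ x :: (c ++ (List.replicate (n * 3) x ++ [y])))
    (d ++ x :: q) x x (by simp)).1
  -- step C
  obtain ⟨m, hm⟩ : ∃ m, n * 3 = m ∧ 2 ≤ m := ⟨n * 3, rfl, by omega⟩
  have sC := rc_gen hrc (a := n * 3) (b := n) (by omega) hn (p ++ x :: c) T q' x y
  -- step D
  have sD := itk hit 1 (p ++ x :: (c ++ List.replicate (n * 3) x)) [y] d q x (by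
    apply mul_sub (mul_mono h ?_) (c := c ++ (y :: d))
    · intro a ha
      rcases List.mem_append.1 ha with h1 | h1
      · rw [List.mem_singleton] at h1
        rw [h1]
        simp
      · exact List.mem_append_right _ (List.mem_cons_of_mem _ h1)
    · intro a
      simp only [List.count_append, List.count_cons, List.count_nil]
      omega)
  -- step E
  have sE := itk hit 3 p c [] (y :: (d ++ x :: q)) x (by
    apply mul_sub (mul_mono h ?_) (c := c ++ (y :: d))
    · intro a ha
      rw [List.append_nil] at ha
      exact List.mem_append_left _ ha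
    · intro a
      simp only [List.count_append, List.count_cons, List.count_nil]
      omega)
  rw [hT] at sA sB sD sE ⊢
  rw [Nat.mul_one] at sD
  have e1 : List.replicate (n * 3 + 1) x = List.replicate (n * 3) x ++ [x] := List.replicate_succ'
  have eN : List.replicate (n + 1) x = x :: List.replicate n x := List.replicate_succ
  have tA : RR β (p ++ x :: (c ++ y :: x :: (T ++ y :: q')))
      (p ++ x :: (c ++ (List.replicate (n * 3) x ++ y :: x :: (T ++ y :: q')))) := by
    simpa only [List.append_assoc, List.cons_append, List.nil_append] using sA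
  have tB : RR β (p ++ x :: (c ++ (List.replicate (n * 3) x ++ y :: x :: (T ++ y :: q'))))
      (p ++ x :: (c ++ (List.replicate (n * 3) x ++ y :: (List.replicate (n + 1) x ++
        (T ++ y :: q'))))) := by
    simpa only [List.append_assoc, List.cons_append, List.nil_append] using sB
  have tC : RR β (p ++ x :: (c ++ (List.replicate (n * 3 + 1) x ++ y :: (List.replicate n x ++
      (T ++ y :: q'))))) (p ++ x :: (c ++ (List.replicate (n * 3) x ++ y ::
        (List.replicate (n + 1) x ++ (T ++ y :: q'))))) := by
    simpa only [List.append_assoc, List.cons_append, List.nil_append] using sC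
  have tE : RR β (p ++ x :: (c ++ x :: y :: (T ++ y :: q')))
      (p ++ x :: (c ++ (List.replicate (n * 3 + 1) x ++ y :: (T ++ y :: q')))) := by
    rw [e1]
    simpa only [List.append_assoc, List.cons_append, List.nil_append] using sE
  have tD : RR β (p ++ x :: (c ++ (List.replicate (n * 3 + 1) x ++ y :: (T ++ y :: q'))))
      (p ++ x :: (c ++ (List.replicate (n * 3 + 1) x ++ y :: (List.replicate n x ++
        (T ++ y :: q'))))) := by
    rw [e1]
    have hT2 : d ++ x :: q = T ++ y :: q' := hT
    rw [← hT2] at sD ⊢
    simpa only [List.append_assoc, List.cons_append, List.nil_append] using sD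
  exact β.trans tA (β.trans tB (β.trans tC.symm (β.trans tD.symm tE.symm)))

/-- **`I2` from the residue crossing** -/
theorem i2_of (hn : 1 ≤ n) (hga : MWZ.Ga n (RR β)) (hrn : MWGP.Rn n (RR β))
    (hit : MWGR.It n (RR β)) (hrc : RC (RR β)) : MWZ.I2 (RR β) := by
  intro p c
  induction c using List.reverseRecOn with
  | nil =>
    intro d q x _
    exact RR.refl _
  | append_singleton c y ih =>
    intro d q x h
    have h' : MVO.Sys.Mul (c ++ (y :: d)) (p ++ x :: (c ++ y :: x :: (d ++ x :: q))) := by
      simpa only [List.append_assoc, List.cons_append, List.nil_append] using h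
    have s1 := cross hn hga hrn hit hrc p c d q x y h'
    have s2 := ih (y :: d) q x (by
      intro a ha
      have h1 := h' a ha
      have e : (p ++ x :: (c ++ x :: (y :: d ++ x :: q))).count a =
          (p ++ x :: (c ++ y :: x :: (d ++ x :: q))).count a := by
        simp only [List.count_append, List.count_cons, List.cons_append]
        omega
      rw [e]
      exact h1)
    have e1 : p ++ x :: (c ++ [y] ++ x :: (d ++ x :: q)) =
        p ++ x :: (c ++ y :: x :: (d ++ x :: q)) := by simp
    have e2 : p ++ x :: x :: (c ++ [y] ++ (d ++ x :: q)) =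
        p ++ x :: x :: (c ++ (y :: d ++ x :: q)) := by simp
    rw [e1, e2]
    exact β.trans s1 s2

end Pool.Agent.Helper85_GN
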