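import Pool.Agent.Helper28_MWZ.Sys
import Pool.Agent.Helper65_MWKP.Nec
import Pool.Agent.Helper65_MWKP.All
import Pool.Agent.Helper85_GN.I2
import Pool.Agent.Helper85_GN.Gn

/-!
# Bridge: the gamma world `xyx ≈ xyx^(n+1)` for all periods (helper85)

MP_23468a_al.  The forms of MWU.  `SGn n`: `xyx ≈ xyx^(n+1)`, `x^(n+1)y^(n+1) ≈ y^(n+1)x^(n+1)`, and
`x²y ≈ x²yx^n` or the base.  Necessity for the varieties with `Q` (outside of the beta world) from
`NecM Q` (the only remaining hypothesis), sufficiency from the row SGM of MWGP.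
-/

set_option autoImplicit false

namespace Pool.Agent.Helper85_GN

open Pool.Agent.Helper14_MV Pool.Agent.Helper2_MV Pool.Agent.MVO Pool.Agent.MWZ

/-- the system of the gamma world -/
def SGn : MWU.Sy := fun n S =>
  MWU.Gam n S ∧ MWGP.Rn n S ∧ (S [0, 0, 1] (0 :: 0 :: 1 :: X n) ∨ BaseH n S)

/-- for period one this is the system `SGam` of `Helper28_MWZ/Sys.lean` -/
theorem sgn_one (S : List ℕ → List ℕ → Prop) : SGn 1 S ↔ SGam 1 S := Iff.rfl

/-- necessity in the G3 world (`xytxy ≈ yxtxy`, not `x²y ≈ x²yx^n`) for the congruences with `Q`: the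
remaining hypothesis -/
def NecM (Q : ℕ → FIC → Prop) : Prop := ∀ (n : ℕ) (β : FIC), ModF β → Gn n β → Q n β →
  MWGP.Rn n (RR β) → ¬ RR β [0, 0, 1] (0 :: 0 :: 1 :: X n) → RR β [0, 1, 2, 0, 1] [1, 0, 2, 0, 1] →
    MWZ.F (RR β) ∧ MWZ.I1 n (RR β) ∧ MWZ.I2 (RR β)

/-- adjacent non-first occurrences commute -/
theorem f'_of {n : ℕ} {β : FIC} (hga : MWU.Gam n (RR β)) (hr : MWGP.Rn n (RR β)) :
    MWZ.F' (RR β) := by
  intro p q c r x y _
  have h := (MWGP.H5.gap n β hga hr (p ++ x :: (c ++ y :: q)) r x y (by simp)).2 (by simp)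
  have e : ∀ s : List ℕ, (p ++ x :: (c ++ y :: q)) ++ s = p ++ x :: (c ++ y :: (q ++ s)) := by
    intro s
    simp
  rwa [e, e] at h

/-- **Necessity, gamma world outside beta, all periods.** -/
theorem gN {Q : ℕ → FIC → Prop} (h : NecM Q) :
    MWU.Nec (fun _ => True)
      (fun n β => MWU.Gam n (RR β) ∧ ¬ MWU.Bet n (RR β) ∧ Q n β) SGn := by
  rintro n β hn - hp hcr - hm ⟨hga, hbe, hq⟩
  left
  obtain ⟨h1, h2⟩ := MWKP.H65.nec hn hp hcr hga hbe hm
  have hr : MWGP.Rn n (RR β) := h1 (n + 1) (n + 1) (by omega) (by omega)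
  refine ⟨hga, hr, ?_⟩
  by_cases hk : RR β [0, 0, 1] (0 :: 0 :: 1 :: X n)
  · exact Or.inl hk
  · have h3 := h2.resolve_left (fun h4 => hk h4.e)
    obtain ⟨hF, hI1, hI2⟩ := h n β hm ⟨⟨hn, hp, hga, hm, hcr⟩, hbe⟩ hq hr hk h3
    exact Or.inr ⟨hF, f'_of hga hr, hI1, hI2⟩

/-- **Sufficiency, gamma world, all periods.** -/
theorem gS (h : MWGP.SgmStmt) : MWU.Suf (fun _ => True) SGn := by
  rintro n β hn - hp ⟨hga, hr, hk | ⟨hf, -, h1, h2⟩⟩
  · exact MWKP.H65.kmod ⟨hn, hga, hk, hr⟩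
  · exact (h n β ⟨hn, hp, hga, hr, hf, h1, h2⟩).2

end Pool.Agent.Helper85_GN
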